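import Mathlib
import Pool.Agent.H320R3.CenterKills

set_option autoImplicit false

open CategoryTheory TensorProduct Matrix
open scoped MatrixGroups

namespace Pool.Agent.Results.MP_f2eb9c_nt.AllEvenRanks

noncomputable section

/-! ### The Galois side -/

/-- The algebraic closure of `ℚ`. -/
noncomputable abbrev Qbar : Type := AlgebraicClosure ℚ

/-- The absolute Galois group of `ℚ` (with the Krull topology). -/
noncomputable abbrev GQ : Type := AlgebraicClosure ℚ ≃ₐ[ℚ] AlgebraicClosure ℚ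

/-- `A` is (the valuation ring of) a place of `Qbar` above the prime `ℓ`. -/
def Above (l : ℕ) (A : ValuationSubring Qbar) : Prop := (l : Qbar) ∈ A.nonunits

/-- The decomposition group of a place of `Qbar`. -/
abbrev decomp (A : ValuationSubring Qbar) : Subgroup GQ := A.decompositionSubgroup ℚ

/-- The inertia group of a place of `Qbar`, as a subgroup of the Galois group. -/
def inertia (A : ValuationSubring Qbar) : Subgroup GQ :=
  (A.inertiaSubgroup ℚ).map (A.decompositionSubgroup ℚ).subtype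

/-- `c` is a complex conjugation: it is induced by complex conjugation of `ℂ` through some
embedding of `Qbar` in `ℂ`. -/
def IsComplexConj (c : GQ) : Prop :=
  ∃ ι : Qbar →+* ℂ, ∀ z : Qbar, ι (c z) = (starRingEnd ℂ) (ι z)

/-- The mod `p` cyclotomic character, with values in the units of a field `k` of
characteristic `p`: the reduction of the `p`-adic cyclotomic character. -/
noncomputable def omega (p : ℕ) [Fact p.Prime] (k : Type) [Field k] [CharP k p] : GQ →* kˣ :=
  (Units.map (ZMod.castHom (dvd_refl p) k).toMonoidHom).comp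
    ((Units.map (PadicInt.toZMod (p := p)).toMonoidHom).comp
      ((cyclotomicCharacter Qbar p).comp
        { toFun := fun σ : GQ => (σ : Qbar ≃+* Qbar)
          map_one' := rfl
          map_mul' := fun _ _ => rfl }))

/-! ### The groups `SL_n` and `PGL_n` -/

/-- The Borel subgroup of upper triangular matrices in `SL_n(R)`. -/
def borel (n : ℕ) (R : Type) [CommRing R] : Subgroup SL(n, R) where
  carrier := {g : SL(n, R) | Matrix.BlockTriangular g.1 id}
  mul_mem' := fun {a b} ha hb => by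
    change Matrix.BlockTriangular (a.1 * b.1) id
    exact Matrix.BlockTriangular.mul ha hb
  one_mem' := by
    change Matrix.BlockTriangular (1 : Matrix (Fin n) (Fin n) R) id
    exact blockTriangular_one
  inv_mem' := fun {a} ha => by
    change Matrix.BlockTriangular (adjugate a.1) id
    have hdet : (a.1).det = 1 := a.2
    have hunit : IsUnit (a.1).det := by rw [hdet]; exact isUnit_one
    let _ := Matrix.invertibleOfIsUnitDet _ hunit
    have h1 := blockTriangular_inv_of_blockTriangular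
      (M := a.1) (b := (id : Fin n → Fin n)) ha
    rw [Matrix.inv_def, hdet, Ring.inverse_one, one_smul] at h1
    exact h1

/-- `Γ₀(N)`: the preimage in `SL_n(ℤ)` of the Borel subgroup of `SL_n(ℤ/N)`. -/
def Gamma0 (n N : ℕ) : Subgroup SL(n, ℤ) :=
  (borel n (ZMod N)).comap (SpecialLinearGroup.map (Int.castRingHom (ZMod N)))

/-- The Lie algebra of `PGL_n` over `k`: all matrices modulo the scalar ones. -/
abbrev LiePGL (n : ℕ) (k : Type) [Field k] : Type :=
  Matrix (Fin n) (Fin n) k ⧸ (Submodule.span k {(1 : Matrix (Fin n) (Fin n) k)})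

/-- Conjugation by `g` on matrices. -/
noncomputable def conjMat {n : ℕ} {k : Type} [Field k] (g : GL (Fin n) k) :
    Matrix (Fin n) (Fin n) k →ₗ[k] Matrix (Fin n) (Fin n) k :=
  (LinearMap.mulLeft k (g : Matrix (Fin n) (Fin n) k)).comp
    (LinearMap.mulRight k ((g⁻¹ : GL (Fin n) k) : Matrix (Fin n) (Fin n) k))

/-- The adjoint action of (the class of) `g` on the Lie algebra of `PGL_n`. -/
noncomputable def Ad {n : ℕ} {k : Type} [Field k] (g : GL (Fin n) k) :
    LiePGL n k →ₗ[k] LiePGL n k :=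
  Submodule.mapQ _ _ (conjMat g) (by
    rw [Submodule.span_le, Set.singleton_subset_iff]
    simp only [SetLike.mem_coe, Submodule.mem_comap]
    have : conjMat g (1 : Matrix (Fin n) (Fin n) k) = 1 := by
      simp [conjMat]
    rw [this]
    exact Submodule.mem_span_singleton_self _)

/-! ### Weights of `SL_n` -/

/-- A character of the diagonal torus of `SL_n`, `diag(t₁, …, t_n) ↦ ∏ tᵢ ^ xᵢ`, is strongly regular
when `⟨x, α^∨⟩ = x i - x (i + 1) ≥ 2` for every simple coroot. -/
def StronglyRegular {n : ℕ} (x : Fin n → ℤ) : Prop :=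
  ∀ (i : ℕ) (hi : i + 1 < n), 2 ≤ x ⟨i, by omega⟩ - x ⟨i + 1, hi⟩

/-- The half-sum `ρ` of the positive roots of `SL_n` (as a character of the diagonal torus, on
which the constant vector is trivial): `ρ = (n - 1, n - 2, …, 0)`. -/
def rho (n : ℕ) (i : Fin n) : ℤ := (n : ℤ) - 1 - i

/-- `π` is an irreducible representation of `SL_n(ℚ)` over `ℚ` with a highest weight vector of
weight `wt`. -/
structure IsIrreducibleOfHighestWeight {n : ℕ} {V : Type} [AddCommGroup V] [Module ℚ V]
    (π : Representation ℚ SL(n, ℚ) V) (wt : Fin n → ℤ) : Prop where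
  irreducible : ∀ W : Submodule ℚ V, (∀ g, ∀ w ∈ W, π g w ∈ W) → W = ⊥ ∨ W = ⊤
  highest : ∃ v : V, v ≠ 0 ∧ ∀ b ∈ borel n ℚ, π b v = (∏ i, (b i i) ^ (wt i)) • v

/-- `M` is a lattice in `V` stable under `SL_n(ℤ)`. -/
structure IsStableLattice {n : ℕ} {V : Type} [AddCommGroup V] [Module ℚ V]
    (π : Representation ℚ SL(n, ℚ) V) (M : Submodule ℤ V) : Prop where
  fg : M.FG
  span : Submodule.span ℚ (M : Set V) = ⊤
  stable : ∀ g : SL(n, ℤ), ∀ m ∈ M,
    π (SpecialLinearGroup.map (Int.castRingHom ℚ) g) m ∈ M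

/-- The action of `Γ₀(N)` on a stable lattice. -/
noncomputable def latticeRep {n : ℕ} {V : Type} [AddCommGroup V] [Module ℚ V]
    {π : Representation ℚ SL(n, ℚ) V} {M : Submodule ℤ V} (hM : IsStableLattice π M) (N : ℕ) :
    Representation ℤ (Gamma0 n N) M where
  toFun g := ((π (SpecialLinearGroup.map (Int.castRingHom ℚ) (g : SL(n, ℤ)))).restrictScalars
    ℤ).restrict (fun m hm => hM.stable _ m hm)
  map_one' := by
    ext m
    simp
  map_mul' g h := by
    ext m
    change π (SpecialLinearGroup.map (Int.castRingHom ℚ) ((g : SL(n, ℤ)) * (h : SL(n, ℤ)))) m.1 =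
      π (SpecialLinearGroup.map (Int.castRingHom ℚ) (g : SL(n, ℤ)))
        (π (SpecialLinearGroup.map (Int.castRingHom ℚ) (h : SL(n, ℤ))) m.1)
    rw [map_mul, map_mul, Module.End.mul_apply]

/-- The action of `Γ₀(N)` on `M ⊗ k`. -/
noncomputable def modRep {n : ℕ} {V : Type} [AddCommGroup V] [Module ℚ V]
    {π : Representation ℚ SL(n, ℚ) V} {M : Submodule ℤ V} (hM : IsStableLattice π M) (N : ℕ)
    (k : Type) [Field k] : Representation k (Gamma0 n N) (k ⊗[ℤ] M) where
  toFun g := (latticeRep hM N g).baseChange k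
  map_one' := by
    ext m
    simp
  map_mul' g h := by
    ext m
    simp

/-- The cohomology group `H^i(Γ₀(N), M ⊗ k)`. -/
noncomputable abbrev H {n : ℕ} {V : Type} [AddCommGroup V] [Module ℚ V]
    {π : Representation ℚ SL(n, ℚ) V} {M : Submodule ℤ V} (hM : IsStableLattice π M) (N : ℕ)
    (k : Type) [Field k] (i : ℕ) : ModuleCat k :=
  groupCohomology (Rep.of (modRep hM N k)) i

/-! ### The hypotheses on the Galois representation -/

/-- `r` is odd: for every complex conjugation `c`, the trace of `Ad (r c)` on the Lie algebra of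
`PGL_n` over `k` is `rank(G) - 2 rank(K) = (n - 1) - 2 ⌊n / 2⌋` (here `G = SL_n(ℝ)`,
`K = SO(n)`). -/
def IsOdd {n : ℕ} {k : Type} [Field k] (r : GQ →* PGL(n, k)) : Prop :=
  ∀ c : GQ, IsComplexConj c → ∀ g : GL (Fin n) k, ProjGenLinGroup.mk g = r c →
    LinearMap.trace k (LiePGL n k) (Ad g) = (((n : ℤ) - 1 - 2 * ((n / 2 : ℕ) : ℤ) : ℤ) : k)

/-- `r` is nearly ordinary of type `x` at `p`: at every place above `p` the restriction of `r` to
the decomposition group is conjugate into the Borel subgroup of upper triangular matrices, in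
such a way that on inertia the diagonal part is the class of `diag(ω ^ x₁, …, ω ^ x_n)`. -/
def IsNearlyOrdinary (p : ℕ) [Fact p.Prime] {n : ℕ} {k : Type} [Field k] [CharP k p]
    (x : Fin n → ℤ) (r : GQ →* PGL(n, k)) : Prop :=
  ∀ A : ValuationSubring Qbar, Above p A → ∃ g : GL (Fin n) k, ∀ σ ∈ decomp A,
    ∃ b : GL (Fin n) k, Matrix.BlockTriangular (b : Matrix (Fin n) (Fin n) k) id ∧
      r σ = ProjGenLinGroup.mk (g * b * g⁻¹) ∧
      (σ ∈ inertia A → ∃ c : kˣ, ∀ i, (b : Matrix (Fin n) (Fin n) k) i i =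
        ((c * (omega p k σ) ^ (x i) : kˣ) : k))

/-- `r` is Steinberg at `l`: the image of inertia is the cyclic group generated by (the class of)
a principal unipotent matrix. -/
def IsSteinbergAt (l : ℕ) {n : ℕ} {k : Type} [Field k] (r : GQ →* PGL(n, k)) : Prop :=
  ∀ A : ValuationSubring Qbar, Above l A → ∃ u : GL (Fin n) k,
    ((u : Matrix (Fin n) (Fin n) k) - 1) ^ n = 0 ∧
    ((u : Matrix (Fin n) (Fin n) k) - 1) ^ (n - 1) ≠ 0 ∧
    (inertia A).map r = Subgroup.zpowers (ProjGenLinGroup.mk u)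

/-- `r` is unramified at `l`. -/
def IsUnramifiedAt (l : ℕ) {n : ℕ} {k : Type} [Field k] (r : GQ →* PGL(n, k)) : Prop :=
  ∀ A : ValuationSubring Qbar, Above l A → ∀ σ ∈ inertia A, r σ = 1

/-- All the hypotheses of the question, for `G = SL_n`, on the weight `x`, the finite set `S` of
primes and the representation `r` of the absolute Galois group of `ℚ`. -/
structure Hypotheses (p : ℕ) [Fact p.Prime] {n : ℕ} (k : Type) [Field k] [CharP k p]
    (x : Fin n → ℤ) (S : Finset ℕ) (r : GQ →* PGL(n, k)) : Prop where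
  regular : StronglyRegular x
  primes : ∀ l ∈ S, l.Prime ∧ l ≠ p
  continuous : IsOpen (r.ker : Set GQ)
  odd : IsOdd r
  ordinary : IsNearlyOrdinary p x r
  steinberg : ∀ l ∈ S, IsSteinbergAt l r
  unramified : ∀ l : ℕ, l.Prime → l ∉ S → l ≠ p → IsUnramifiedAt l r

/-! ### Proofs -/

/-- `-1` as an element of `SL_n(R)`, `n` even. -/
def negOne (n : ℕ) (hn : Even n) (R : Type) [CommRing R] : SL(n, R) :=
  ⟨-1, by rw [Matrix.det_neg]; simp [hn.neg_one_pow]⟩

lemma negOne_mem_borel (n : ℕ) (hn : Even n) (R : Type) [CommRing R] :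
    negOne n hn R ∈ borel n R := by
  change Matrix.BlockTriangular (-1 : Matrix (Fin n) (Fin n) R) id
  exact blockTriangular_one.neg

lemma negOne_comm (n : ℕ) (hn : Even n) (R : Type) [CommRing R] (g : SL(n, R)) :
    g * negOne n hn R = negOne n hn R * g := by
  apply Subtype.ext
  change g.1 * (-1) = (-1) * g.1
  simp

lemma map_negOne (n : ℕ) (hn : Even n) {R S : Type} [CommRing R] [CommRing S] (f : R →+* S) :
    SpecialLinearGroup.map f (negOne n hn R) = negOne n hn S := by
  apply Subtype.ext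
  change f.mapMatrix (-1) = -1
  rw [map_neg, map_one]

lemma prod_neg_one_zpow {ι : Type} (s : Finset ι) (f : ι → ℤ) :
    ∏ i ∈ s, (-1 : ℚ) ^ f i = (-1) ^ (∑ i ∈ s, f i) := by
  classical
  induction s using Finset.induction_on with
  | empty => simp
  | insert a s ha ih =>
    rw [Finset.prod_insert ha, Finset.sum_insert ha, ih, zpow_add₀ (by norm_num)]

/-- `-1` acts as `-1`. -/
lemma negOne_act {n : ℕ} (hn : Even n) {V : Type} [AddCommGroup V] [Module ℚ V]
    {π : Representation ℚ SL(n, ℚ) V} {wt : Fin n → ℤ} (h : IsIrreducibleOfHighestWeight π wt)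
    (hwt : Odd (∑ i, wt i)) (v : V) : π (negOne n hn ℚ) v = -v := by
  obtain ⟨v₀, hv₀, hb⟩ := h.highest
  have h1 : π (negOne n hn ℚ) v₀ = -v₀ := by
    rw [hb _ (negOne_mem_borel n hn ℚ)]
    have h2 : ∀ i, (negOne n hn ℚ) i i = -1 := by
      intro i
      change (-1 : Matrix (Fin n) (Fin n) ℚ) i i = -1
      simp
    simp_rw [h2]
    rw [prod_neg_one_zpow, hwt.neg_one_zpow, neg_one_smul]
  let W : Submodule ℚ V := LinearMap.ker (π (negOne n hn ℚ) + LinearMap.id)
  have hW : ∀ w, w ∈ W ↔ π (negOne n hn ℚ) w = -w := by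
    intro w
    simp only [W, LinearMap.mem_ker, LinearMap.add_apply, LinearMap.id_apply]
    exact add_eq_zero_iff_eq_neg
  have hst : ∀ g, ∀ w ∈ W, π g w ∈ W := by
    intro g w hw
    rw [hW] at hw ⊢
    rw [← Module.End.mul_apply, ← map_mul, ← negOne_comm, map_mul, Module.End.mul_apply, hw,
      map_neg]
  rcases h.irreducible W hst with h3 | h3
  · exact absurd ((Submodule.mem_bot ℚ).1 (h3 ▸ (hW v₀).2 h1)) hv₀
  · exact (hW v).1 (h3 ▸ Submodule.mem_top)

/-- In characteristic different from `2`, all the cohomology vanishes when the sum of the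
coordinates of the highest weight is odd. -/
lemma vanishing {n : ℕ} (hn : Even n) {V : Type} [AddCommGroup V] [Module ℚ V]
    {π : Representation ℚ SL(n, ℚ) V} {wt : Fin n → ℤ} (h : IsIrreducibleOfHighestWeight π wt)
    (hwt : Odd (∑ i, wt i)) {M : Submodule ℤ V} (hM : IsStableLattice π M) (N : ℕ) (k : Type)
    [Field k] (h2 : (2 : k) ≠ 0) (i : ℕ) : Subsingleton (H hM N k i) := by
  have hmem : negOne n hn ℤ ∈ Gamma0 n N := by
    change SpecialLinearGroup.map (Int.castRingHom (ZMod N)) (negOne n hn ℤ) ∈ borel n (ZMod N)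
    rw [map_negOne]
    exact negOne_mem_borel n hn _
  refine H320R3.CenterKills.subsingleton_groupCohomology _ (⟨negOne n hn ℤ, hmem⟩ : Gamma0 n N)
    (fun g => Subtype.ext (negOne_comm n hn ℤ g)) ?_ (isUnit_iff_ne_zero.2 h2) i
  intro a
  have h1 : latticeRep hM N ⟨negOne n hn ℤ, hmem⟩ = -LinearMap.id := by
    ext m
    change π (SpecialLinearGroup.map (Int.castRingHom ℚ) (negOne n hn ℤ)) m.1 = _
    rw [map_negOne, negOne_act hn h hwt]
    simp
  change (latticeRep hM N ⟨negOne n hn ℤ, hmem⟩).baseChange k a = -a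
  rw [h1]
  simp

section Cyclotomic

variable (p : ℕ) [Fact p.Prime] (k : Type) [Field k] [CharP k p]

lemma omega_spec (σ : GQ) : ∃ n : ℕ, (∀ t : Qbar, t ^ p = 1 → σ t = t ^ n) ∧
    ((omega p k σ : kˣ) : k) = (n : k) := by
  have hne : ∀ i : ℕ, NeZero ((p ^ i : ℕ) : Qbar) := fun i =>
    ⟨by exact_mod_cast pow_ne_zero i (Fact.out : p.Prime).ne_zero⟩
  have hinst : ∀ i, HasEnoughRootsOfUnity Qbar (p ^ i) := fun i => inferInstance
  set a : ℤ_[p] := ((cyclotomicCharacter Qbar p) (σ : Qbar ≃+* Qbar)).val with ha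
  refine ⟨(PadicInt.toZModPow 1 a).val, ?_, ?_⟩
  · intro t ht
    have := cyclotomicCharacter.spec p (n := 1) (σ : Qbar ≃+* Qbar) t (by rw [pow_one]; exact ht)
    exact this
  · have h1 : a - (((PadicInt.toZModPow 1 a).val : ℕ) : ℤ_[p]) ∈
        RingHom.ker (PadicInt.toZModPow (p := p) 1) := by
      rw [RingHom.mem_ker, map_sub, map_natCast, ZMod.natCast_val, ZMod.cast_id, sub_self]
    rw [PadicInt.ker_toZModPow, Ideal.mem_span_singleton, pow_one] at h1
    obtain ⟨c, hc⟩ := h1
    have h2 : PadicInt.toZMod a = (((PadicInt.toZModPow 1 a).val : ℕ) : ZMod p) := by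
      have h3 : a = (((PadicInt.toZModPow 1 a).val : ℕ) : ℤ_[p]) + p * c := by
        rw [← hc]; ring
      conv_lhs => rw [h3]
      rw [map_add, map_mul, map_natCast, map_natCast]
      simp
    change (ZMod.castHom (dvd_refl p) k) (PadicInt.toZMod a) = _
    rw [h2, map_natCast]

omit [Fact p.Prime] in
variable {p} in
lemma cast_one_of_dvd (hp : 1 ≤ p) {n : ℕ} (h : p ∣ n + (p - 1)) : (n : k) = 1 := by
  have h1 : ((n + (p - 1) : ℕ) : k) = 0 := (CharP.cast_eq_zero_iff k p _).2 h
  rw [Nat.cast_add, Nat.cast_sub hp, CharP.cast_eq_zero k p] at h1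
  push_cast at h1
  linear_combination h1

lemma exists_zeta : ∃ z : Qbar, IsPrimitiveRoot z p := by
  have : NeZero ((p : ℕ) : Qbar) := ⟨by exact_mod_cast (Fact.out : p.Prime).ne_zero⟩
  exact HasEnoughRootsOfUnity.exists_primitiveRoot Qbar p

variable {p}

/-- complex conjugation acts by `-1` -/
lemma omega_conj {c : GQ} (hc : IsComplexConj c) : omega p k c = -1 := by
  obtain ⟨ι, hι⟩ := hc
  obtain ⟨n, h1, h2⟩ := omega_spec p k c
  obtain ⟨z, hz⟩ := exists_zeta p
  have h3 := h1 z hz.pow_eq_one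
  have h4 := hι z
  rw [h3, map_pow] at h4
  have hnorm : ‖ι z‖ = 1 := by
    have h5 : (ι z) ^ p = 1 := by rw [← map_pow, hz.pow_eq_one, map_one]
    exact Complex.norm_eq_one_of_pow_eq_one h5 (Fact.out : p.Prime).ne_zero
  have h6 : (starRingEnd ℂ) (ι z) * ι z = 1 := by
    rw [← Complex.normSq_eq_conj_mul_self, Complex.normSq_eq_norm_sq, hnorm]
    norm_num
  have h7 : ι (z ^ (n + 1)) = 1 := by
    rw [map_pow, pow_succ, h4, h6]
  have h8 : z ^ (n + 1) = 1 := ι.injective (by rw [h7, map_one])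
  have h9 : p ∣ n + 1 := (hz.pow_eq_one_iff_dvd _).1 h8
  have h10 : ((n + 1 : ℕ) : k) = 0 := (CharP.cast_eq_zero_iff k p _).2 h9
  apply Units.ext
  rw [h2, Units.val_neg, Units.val_one]
  push_cast at h10
  linear_combination h10

/-- elements fixing the `p`-th roots of unity are in the kernel -/
lemma omega_of_fix {σ : GQ} {z : Qbar} (hz : IsPrimitiveRoot z p) (h : σ z = z) :
    omega p k σ = 1 := by
  obtain ⟨n, h1, h2⟩ := omega_spec p k σ
  have h3 := h1 z hz.pow_eq_one
  rw [h] at h3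
  have hp : p.Prime := Fact.out
  have h4 : z ^ (n + (p - 1)) = 1 := by
    rw [pow_add, ← h3, ← pow_succ', Nat.sub_add_cancel hp.one_le, hz.pow_eq_one]
  have h5 : p ∣ n + (p - 1) := (hz.pow_eq_one_iff_dvd _).1 h4
  apply Units.ext
  rw [h2, Units.val_one]
  exact cast_one_of_dvd k hp.one_le h5

lemma isOpen_omega : IsOpen ((omega p k).ker : Set GQ) := by
  obtain ⟨z, hz⟩ := exists_zeta p
  have hint : IsIntegral ℚ z := (hz.isIntegral (Fact.out : p.Prime).pos).tower_top
  have : FiniteDimensional ℚ (IntermediateField.adjoin ℚ {z}) :=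
    IntermediateField.adjoin.finiteDimensional hint
  have h1 := IntermediateField.fixingSubgroup_isOpen (IntermediateField.adjoin ℚ {z})
  refine Subgroup.isOpen_mono (H₁ := (IntermediateField.adjoin ℚ {z}).fixingSubgroup) ?_ h1
  intro σ hσ
  rw [MonoidHom.mem_ker]
  refine omega_of_fix k hz ?_
  rw [IntermediateField.mem_fixingSubgroup_iff] at hσ
  exact hσ z (IntermediateField.mem_adjoin_simple_self ℚ z)

/-- `ω` is unramified outside `p` -/
lemma omega_unramified {l : ℕ} (hl : l.Prime) (hlp : l ≠ p) {A : ValuationSubring Qbar}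
    (hA : Above l A) {σ : GQ} (hσ : σ ∈ inertia A) : omega p k σ = 1 := by
  obtain ⟨τ, hτ, rfl⟩ := hσ
  obtain ⟨n, h1, h2⟩ := omega_spec p k ((A.decompositionSubgroup ℚ).subtype τ)
  obtain ⟨z, hz⟩ := exists_zeta p
  have hp : p.Prime := Fact.out
  have hzA : z ∈ A := by
    rcases A.mem_or_inv_mem z with h | h
    · exact h
    · have h3 : z = (z⁻¹) ^ (p - 1) := by
        have h4 : z ^ (p - 1) * z = 1 := by
          rw [← pow_succ, Nat.sub_add_cancel hp.one_le, hz.pow_eq_one]
        rw [inv_pow]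
        exact eq_inv_of_mul_eq_one_right h4
      rw [h3]
      exact pow_mem h _
  let zA : A := ⟨z, hzA⟩
  set r : IsLocalRing.ResidueField A := IsLocalRing.residue A zA with hr
  have h3 : IsLocalRing.residue A (τ • zA) = r := by
    have h4 : MulSemiringAction.toRingAut (A.decompositionSubgroup ℚ)
        (IsLocalRing.ResidueField A) τ = 1 := hτ
    have h5 := congrArg (fun f => f r) h4
    change τ • r = r at h5
    rw [hr, ← IsLocalRing.ResidueField.residue_smul] at h5
    exact h5
  have h4 : τ • zA = zA ^ n := by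
    apply Subtype.ext
    have := h1 z hz.pow_eq_one
    exact this
  rw [h4, map_pow] at h3
  have h5 : r ^ p = 1 := by
    rw [hr, ← map_pow]
    have : zA ^ p = 1 := Subtype.ext hz.pow_eq_one
    rw [this, map_one]
  have h6 : orderOf r = 1 ∨ orderOf r = p := (Nat.dvd_prime hp).1 (orderOf_dvd_of_pow_eq_one h5)
  have hlr : ((l : ℕ) : IsLocalRing.ResidueField A) = 0 := by
    have h7 : ((l : ℕ) : A) ∈ IsLocalRing.maximalIdeal A := by
      rw [← ValuationSubring.coe_mem_nonunits_iff]
      exact_mod_cast hA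
    have h8 := (IsLocalRing.residue_eq_zero_iff _).2 h7
    rwa [map_natCast] at h8
  rcases h6 with h6 | h6
  · exfalso
    rw [orderOf_eq_one_iff] at h6
    have h7 : ∑ i ∈ Finset.range p, zA ^ i = 0 := by
      apply Subtype.ext
      have := hz.geom_sum_eq_zero hp.one_lt
      push_cast
      exact this
    have h8 := congrArg (IsLocalRing.residue A) h7
    rw [map_sum, map_zero] at h8
    simp only [map_pow] at h8
    rw [← hr, h6] at h8
    simp only [one_pow, Finset.sum_const, Finset.card_range, nsmul_eq_mul, mul_one] at h8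
    have h9 : IsCoprime (l : ℤ) (p : ℤ) := Nat.isCoprime_iff_coprime.2 ((Nat.coprime_primes hl hp).2 hlp)
    obtain ⟨a, b, hab⟩ := h9
    have h10 := congrArg (fun x : ℤ => (x : IsLocalRing.ResidueField A)) hab
    push_cast at h10
    rw [hlr, h8] at h10
    simp at h10
  · have h7 : r ^ (n + (p - 1)) = 1 := by
      rw [pow_add, h3, ← pow_succ', Nat.sub_add_cancel hp.one_le, h5]
    have h8 := orderOf_dvd_of_pow_eq_one h7
    rw [h6] at h8
    apply Units.ext
    rw [h2, Units.val_one]
    exact cast_one_of_dvd k hp.one_le h8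

end Cyclotomic

lemma Ad_congr {n : ℕ} {k : Type} [Field k] {g h : GL (Fin n) k}
    (hgh : ProjGenLinGroup.mk g = ProjGenLinGroup.mk h) : Ad g = Ad h := by
  have h1 : ProjGenLinGroup.mk (h⁻¹ * g) = 1 := by
    rw [map_mul, map_inv, hgh, inv_mul_cancel]
  rw [ProjGenLinGroup.mk_eq_one, Matrix.GeneralLinearGroup.center_eq_range_scalar] at h1
  obtain ⟨u, hu⟩ := h1
  have hg : g = h * Matrix.GeneralLinearGroup.scalar (Fin n) u := by
    rw [hu, mul_inv_cancel_left]
  have h2 : conjMat g = conjMat h := by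
    ext1 X
    simp only [conjMat, LinearMap.comp_apply, LinearMap.mulLeft_apply, LinearMap.mulRight_apply]
    have hcomm : Matrix.GeneralLinearGroup.scalar (Fin n) u * h⁻¹ =
        h⁻¹ * Matrix.GeneralLinearGroup.scalar (Fin n) u := by
      apply Units.ext
      rw [Units.val_mul, Units.val_mul, Matrix.GeneralLinearGroup.coe_scalar]
      exact (Matrix.scalar_commute _ (fun r => Commute.all _ _) _).eq
    have hginv : g⁻¹ = h⁻¹ * (Matrix.GeneralLinearGroup.scalar (Fin n) u)⁻¹ := by
      rw [hg, _root_.mul_inv_rev]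
      rw [← map_inv]
      apply Units.ext
      rw [Units.val_mul, Units.val_mul, Matrix.GeneralLinearGroup.coe_scalar]
      exact (Matrix.scalar_commute _ (fun r => Commute.all _ _) _).eq
    rw [hginv, hg, Units.val_mul, Units.val_mul, ← map_inv,
      Matrix.GeneralLinearGroup.coe_scalar, Matrix.GeneralLinearGroup.coe_scalar]
    have hu' : (u : k) ≠ 0 := u.ne_zero
    have e1 : ∀ c : k, Matrix.scalar (Fin n) c = c • (1 : Matrix (Fin n) (Fin n) k) := by
      intro c
      rw [Matrix.scalar_apply, Matrix.smul_one_eq_diagonal]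
    rw [e1, e1]
    simp only [Matrix.mul_smul, Matrix.smul_mul, Matrix.mul_one, smul_smul]
    have e2 : ((u⁻¹ : kˣ) : k) * (u : k) = 1 := by simp
    rw [e2, one_smul]
  unfold Ad
  simp only [h2]


/-! ### The trace of `Ad` of a diagonal matrix -/

lemma trace_quot {k V : Type} [Field k] [AddCommGroup V] [Module k V] [FiniteDimensional k V]
    (T : V →ₗ[k] V) (v : V) (hv : v ≠ 0) (hT : T v = v)
    (h : Submodule.span k {v} ≤ (Submodule.span k {v}).comap T) :
    LinearMap.trace k (V ⧸ Submodule.span k {v}) (Submodule.mapQ _ _ T h) =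
      LinearMap.trace k V T - 1 := by
  obtain ⟨s, hs⟩ := (Submodule.mkQ (Submodule.span k {v})).exists_rightInverse_of_surjective
    (Submodule.range_mkQ _)
  have hs' : ∀ y, Submodule.mkQ (Submodule.span k {v}) (s y) = y := fun y => by
    rw [← LinearMap.comp_apply, hs, LinearMap.id_apply]
  set Q : V →ₗ[k] V ⧸ Submodule.span k {v} := Submodule.mkQ (Submodule.span k {v}) with hQ
  let P : V →ₗ[k] V := LinearMap.id - s.comp Q
  have hPmem : ∀ y, P y ∈ Submodule.span k {v} := by
    intro y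
    rw [← Submodule.Quotient.mk_eq_zero]
    change Q (y - s (Q y)) = 0
    rw [map_sub, hs', sub_self]
  have hPid : ∀ y ∈ Submodule.span k {v}, P y = y := by
    intro y hy
    have : Q y = 0 := (Submodule.Quotient.mk_eq_zero _).2 hy
    change y - s (Q y) = y
    rw [this, map_zero, sub_zero]
  have hproj : LinearMap.IsProj (Submodule.span k {v}) P := ⟨hPmem, hPid⟩
  have htrP : LinearMap.trace k V P = 1 := by
    rw [hproj.trace, finrank_span_singleton hv]
    simp
  have hTP : T.comp P = P := by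
    ext y
    rw [LinearMap.comp_apply]
    obtain ⟨c, hc⟩ := Submodule.mem_span_singleton.1 (hPmem y)
    rw [← hc, map_smul, hT]
  have h1 : Submodule.mapQ _ _ T h = (Q.comp T).comp s := by
    have h2 : (Submodule.mapQ _ _ T h).comp Q = Q.comp T := Submodule.mapQ_mkQ _ _ _
    rw [← h2, LinearMap.comp_assoc, hs, LinearMap.comp_id]
  rw [h1, LinearMap.trace_comp_comm', ← LinearMap.comp_assoc]
  have h3 : (s.comp Q).comp T = T - P.comp T := by
    ext y
    simp [P]
  rw [h3, map_sub, LinearMap.trace_comp_comm', hTP, htrP]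

/-- The diagonal matrices. -/
noncomputable def diagHom (n : ℕ) (k : Type) [Field k] : (Fin n → kˣ) →* GL (Fin n) k :=
  (Units.map (Matrix.diagonalRingHom (Fin n) k).toMonoidHom).comp
    (MulEquiv.piUnits (M := fun _ : Fin n => k)).symm.toMonoidHom

lemma diagHom_coe {n : ℕ} (k : Type) [Field k] (u : Fin n → kˣ) :
    (diagHom n k u : Matrix (Fin n) (Fin n) k) = Matrix.diagonal fun i => ((u i : kˣ) : k) := rfl

lemma trace_conj_diag {n : ℕ} (k : Type) [Field k] (u : Fin n → kˣ) :
    LinearMap.trace k _ (conjMat (diagHom n k u)) =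
      (∑ i, (u i : k)) * ∑ i, (((u i)⁻¹ : kˣ) : k) := by
  rw [LinearMap.trace_eq_matrix_trace k (Matrix.stdBasis k (Fin n) (Fin n)), Matrix.trace]
  rw [Fintype.sum_prod_type, Finset.sum_mul_sum]
  refine Finset.sum_congr rfl fun i _ => Finset.sum_congr rfl fun j _ => ?_
  rw [Matrix.diag_apply, LinearMap.toMatrix_apply, Matrix.stdBasis_eq_single]
  have h1 : conjMat (diagHom n k u) (Matrix.single i j (1 : k)) =
      ((u i : k) * (((u j)⁻¹ : kˣ) : k)) • Matrix.single i j (1 : k) := by
    unfold conjMat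
    rw [LinearMap.comp_apply, LinearMap.mulLeft_apply, LinearMap.mulRight_apply, ← map_inv,
      diagHom_coe, diagHom_coe]
    ext a b
    rw [Matrix.diagonal_mul, Matrix.mul_diagonal, Matrix.smul_apply, Matrix.single_apply]
    by_cases h : i = a ∧ j = b
    · obtain ⟨rfl, rfl⟩ := h
      simp
    · simp [h]
  rw [h1, map_smul, Finsupp.smul_apply, ← Matrix.stdBasis_eq_single, Module.Basis.repr_self]
  simp

lemma trace_Ad_diag {n : ℕ} (hn : 0 < n) (k : Type) [Field k] (u : Fin n → kˣ) :
    LinearMap.trace k (LiePGL n k) (Ad (diagHom n k u)) =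
      (∑ i, (u i : k)) * (∑ i, (((u i)⁻¹ : kˣ) : k)) - 1 := by
  have : Nonempty (Fin n) := ⟨⟨0, hn⟩⟩
  unfold Ad
  rw [trace_quot _ (1 : Matrix (Fin n) (Fin n) k) one_ne_zero (by simp [conjMat]),
    trace_conj_diag]

/-- The number of odd entries of `x`. -/
def numOdd {n : ℕ} (x : Fin n → ℤ) : ℕ := (Finset.univ.filter fun i => Odd (x i)).card

/-- The homomorphism `σ ↦` class of `diag (ω(σ) ^ x₁, …, ω(σ) ^ x_n)` in `PGL_n(k)`. -/
noncomputable def rbar (p : ℕ) [Fact p.Prime] {n : ℕ} (k : Type) [Field k] [CharP k p]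
    (x : Fin n → ℤ) : GQ →* PGL(n, k) :=
  ProjGenLinGroup.mk.comp ((diagHom n k).comp (MonoidHom.pi fun i => (omega p k) ^ (x i)))

lemma rbar_apply (p : ℕ) [Fact p.Prime] {n : ℕ} (k : Type) [Field k] [CharP k p]
    (x : Fin n → ℤ) (σ : GQ) :
    rbar p k x σ = ProjGenLinGroup.mk (diagHom n k fun i => (omega p k σ) ^ (x i)) := rfl

lemma rbar_of_omega {p : ℕ} [Fact p.Prime] {n : ℕ} {k : Type} [Field k] [CharP k p]
    (x : Fin n → ℤ) {σ : GQ} (h : omega p k σ = 1) : rbar p k x σ = 1 := by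
  rw [rbar_apply, h]
  have : (fun i : Fin n => (1 : kˣ) ^ (x i)) = 1 := by
    funext i
    rw [_root_.one_zpow]
    rfl
  rw [this, map_one, map_one]

lemma sum_sign {n : ℕ} (k : Type) [Field k] (x : Fin n → ℤ) :
    ∑ i, (((-1 : kˣ) ^ (x i) : kˣ) : k) = ((n : ℤ) - 2 * numOdd x : ℤ) := by
  have h1 : ∀ i, (((-1 : kˣ) ^ (x i) : kˣ) : k) = 1 - if Odd (x i) then 2 else 0 := by
    intro i
    rcases Int.even_or_odd (x i) with h | h
    · rw [h.neg_one_zpow, if_neg (by rw [Int.not_odd_iff_even]; exact h)]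
      simp
    · rw [h.neg_one_zpow, if_pos h]
      push_cast
      ring
  simp_rw [h1]
  rw [Finset.sum_sub_distrib, ← Finset.sum_filter]
  simp only [Finset.sum_const, Finset.card_univ, Fintype.card_fin, nsmul_eq_mul, mul_one, numOdd]
  push_cast
  ring

lemma trace_rbar_conj (p : ℕ) [Fact p.Prime] {n : ℕ} (hn : 0 < n) (k : Type) [Field k]
    [CharP k p] (x : Fin n → ℤ) {c : GQ} (hc : IsComplexConj c) {g : GL (Fin n) k}
    (hg : ProjGenLinGroup.mk g = rbar p k x c) :
    LinearMap.trace k (LiePGL n k) (Ad g) = ((((n : ℤ) - 2 * numOdd x) ^ 2 - 1 : ℤ) : k) := by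
  rw [rbar_apply, omega_conj k hc] at hg
  rw [Ad_congr hg, trace_Ad_diag hn]
  have h1 : ∀ i, (((((-1 : kˣ) ^ (x i))⁻¹ : kˣ)) : k) = (((-1 : kˣ) ^ (x i) : kˣ) : k) := by
    intro i
    rw [← _root_.inv_zpow, inv_neg_one]
  simp_rw [h1]
  rw [sum_sign]
  push_cast
  ring

lemma exists_conj : ∃ c : GQ, IsComplexConj c := by
  have hq : Algebra.IsAlgebraic ℚ (AlgebraicClosure ℚ) := AlgebraicClosure.isAlgebraic ℚ
  have hn : Normal ℚ (AlgebraicClosure ℚ) :=
    { toIsAlgebraic := hq
      splits' := fun x => IsAlgClosed.splits _ }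
  let ι : (AlgebraicClosure ℚ) →ₐ[ℚ] ℂ := IsAlgClosed.lift
  let _ : Algebra (AlgebraicClosure ℚ) ℂ := ι.toRingHom.toAlgebra
  have : IsScalarTower ℚ (AlgebraicClosure ℚ) ℂ :=
    IsScalarTower.of_algebraMap_eq fun q => (ι.commutes q).symm
  refine ⟨(Complex.conjAe.restrictScalars ℚ).restrictNormal (AlgebraicClosure ℚ),
    ι.toRingHom, fun z => ?_⟩
  exact AlgEquiv.restrictNormal_commutes (Complex.conjAe.restrictScalars ℚ)
    (AlgebraicClosure ℚ) z

lemma sum_rho_two {n : ℕ} : 2 * ∑ i, rho n i = (n : ℤ) * (n - 1) := by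
  have h3 : ∑ i : Fin n, rho n i = ∑ i ∈ Finset.range n, ((n : ℤ) - 1 - i) := by
    rw [← Fin.sum_univ_eq_sum_range (fun i => (n : ℤ) - 1 - i)]
    rfl
  rcases Nat.eq_zero_or_pos n with rfl | hn
  · simp
  have h4 : ((∑ i ∈ Finset.range n, i : ℕ) : ℤ) * 2 = (n : ℤ) * (n - 1) := by
    have := Finset.sum_range_id_mul_two n
    have h5 : ((n - 1 : ℕ) : ℤ) = (n : ℤ) - 1 := by omega
    rw [← h5]
    exact_mod_cast this
  rw [h3, Finset.sum_sub_distrib]
  simp only [Finset.sum_const, Finset.card_range, nsmul_eq_mul]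
  push_cast at h4
  linarith

lemma sum_parity {n : ℕ} (x : Fin n → ℤ) : (2 : ℤ) ∣ ∑ i, x i - numOdd x := by
  have h1 : (numOdd x : ℤ) = ∑ i, if Odd (x i) then (1 : ℤ) else 0 := by
    rw [← Finset.sum_filter]
    simp [numOdd]
  rw [h1, ← Finset.sum_sub_distrib]
  refine Finset.dvd_sum fun i _ => ?_
  split_ifs with h
  · obtain ⟨t, ht⟩ := h
    exact ⟨t, by rw [ht]; ring⟩
  · rw [Int.not_odd_iff_even] at h
    obtain ⟨t, ht⟩ := h
    exact ⟨t, by rw [ht]; ring⟩

lemma odd_iff {n : ℕ} (hn : Even n) (x : Fin n → ℤ) :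
    Odd (∑ i, (x i - rho n i)) ↔ Odd (n / 2 + numOdd x) := by
  obtain ⟨m, hm⟩ := hn
  have h0 : n / 2 = m := by omega
  have h1 := sum_rho_two (n := n)
  have h2 : ∑ i, rho n i = m * (2 * m - 1) := by
    have : (n : ℤ) = 2 * m := by omega
    rw [this] at h1
    linarith
  obtain ⟨t, ht⟩ := sum_parity x
  rw [Finset.sum_sub_distrib, h2, h0, show ∑ i, x i = numOdd x + 2 * t by linarith]
  rw [← Int.odd_coe_nat, Nat.cast_add]
  constructor
  · rintro ⟨s, hs⟩
    exact ⟨s - t + m * m, by linarith⟩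
  · rintro ⟨s, hs⟩
    exact ⟨s + t - m * m, by linarith⟩

lemma two_ne_zero' {p : ℕ} [Fact p.Prime] (hp : p ≠ 2) (k : Type) [Field k] [CharP k p] :
    (2 : k) ≠ 0 := by
  intro h
  have h1 : ((2 : ℕ) : k) = 0 := by exact_mod_cast h
  rw [CharP.cast_eq_zero_iff k p] at h1
  have := Nat.le_of_dvd (by norm_num) h1
  have := (Fact.out : p.Prime).two_le
  omega

lemma isOdd_iff (p : ℕ) [Fact p.Prime] {n : ℕ} (hn : 0 < n) (k : Type) [Field k]
    [CharP k p] (x : Fin n → ℤ) :
    IsOdd (rbar p k x) ↔ (p : ℤ) ∣ ((n : ℤ) - 2 * numOdd x) ^ 2 - (n % 2 : ℕ) := by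
  have hE : ∀ {c : GQ} (_ : IsComplexConj c) {g : GL (Fin n) k}
      (_ : ProjGenLinGroup.mk g = rbar p k x c),
      LinearMap.trace k (LiePGL n k) (Ad g) = (((n : ℤ) - 1 - 2 * ((n / 2 : ℕ) : ℤ) : ℤ) : k) ↔
      (p : ℤ) ∣ ((n : ℤ) - 2 * numOdd x) ^ 2 - (n % 2 : ℕ) := by
    intro c hc g hg
    rw [trace_rbar_conj p hn k x hc hg, ← sub_eq_zero, ← Int.cast_sub,
      CharP.intCast_eq_zero_iff k p]
    have : ((n : ℤ) - 2 * numOdd x) ^ 2 - 1 - ((n : ℤ) - 1 - 2 * ((n / 2 : ℕ) : ℤ)) =
        ((n : ℤ) - 2 * numOdd x) ^ 2 - (n % 2 : ℕ) := by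
      have : (n : ℤ) - 2 * ((n / 2 : ℕ) : ℤ) = (n % 2 : ℕ) := by omega
      linarith
    rw [this]
  constructor
  · intro h
    obtain ⟨c, hc⟩ := exists_conj
    exact (hE hc (g := diagHom n k fun i => (omega p k c) ^ (x i)) rfl).1 (h c hc _ rfl)
  · intro h c hc g hg
    exact (hE hc hg).2 h

lemma hyp_iff (p : ℕ) [Fact p.Prime] {n : ℕ} (hn : 0 < n) (k : Type) [Field k]
    [CharP k p] (x : Fin n → ℤ) :
    Hypotheses p k x ∅ (rbar p k x) ↔
      StronglyRegular x ∧ (p : ℤ) ∣ ((n : ℤ) - 2 * numOdd x) ^ 2 - (n % 2 : ℕ) := by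
  rw [← isOdd_iff p hn k x]
  constructor
  · intro h
    exact ⟨h.regular, h.odd⟩
  rintro ⟨hreg, hodd⟩
  refine ⟨hreg, by simp, ?_, hodd, ?_, by simp, ?_⟩
  · refine Subgroup.isOpen_mono (H₁ := (omega p k).ker) ?_ (isOpen_omega k)
    intro σ hσ
    exact rbar_of_omega x hσ
  · intro A _
    refine ⟨1, fun σ _ => ⟨diagHom n k fun i => (omega p k σ) ^ (x i), ?_, ?_, fun _ => ⟨1, ?_⟩⟩⟩
    · rw [diagHom_coe]
      exact Matrix.blockTriangular_diagonal _
    · rw [inv_one, one_mul, mul_one]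
      rfl
    · intro i
      rw [diagHom_coe, Matrix.diagonal_apply_eq, one_mul]
  · intro l hl _ hlp A hA σ hσ
    exact rbar_of_omega x (omega_unramified k hl hlp hA hσ)

/-- A strongly regular weight with a given number of odd entries. -/
def wt (n a : ℕ) (i : Fin n) : ℤ := -4 * (i : ℤ) + if (i : ℕ) < a then 1 else 0

lemma wt_regular (n a : ℕ) : StronglyRegular (wt n a) := by
  intro i hi
  simp only [wt]
  push_cast
  split_ifs <;> omega

lemma numOdd_wt {n a : ℕ} (h : a ≤ n) : numOdd (wt n a) = a := by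
  have h1 : (Finset.univ.filter fun i : Fin n => Odd (wt n a i)) =
      Finset.univ.filter fun i : Fin n => (i : ℕ) < a := by
    ext i
    rw [Finset.mem_filter, Finset.mem_filter]
    refine and_congr_right fun _ => ?_
    unfold wt
    by_cases h2 : (i : ℕ) < a
    · rw [if_pos h2]
      exact ⟨fun _ => h2, fun _ => ⟨-2 * (i : ℤ), by ring⟩⟩
    · rw [if_neg h2, add_zero]
      refine ⟨fun h3 => absurd h3 (Int.not_odd_iff_even.2 ⟨-2 * (i : ℤ), by ring⟩),
        fun h3 => absurd h3 h2⟩
  rw [numOdd, h1]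
  rw [Fin.card_filter_val_lt]
  exact min_eq_right h

/-- **Counterexamples for `SL_n`, every odd prime `p` and every even `n ≥ 2 p`.**

1. Let `n` be even and let the sum of the entries of `x - ρ` be odd. Then all the cohomology
   groups `H^i(Γ₀(N), M ⊗ k)` vanish, for every `N`, every `i`, every finite field `k` of
   characteristic `p` and every stable lattice `M` in the irreducible representation of highest
   weight `x - ρ`. So no Hecke eigenclass matches any homomorphism to `PGL_n(k)`.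
2. Let `a` be the number of odd entries of `x`. The homomorphism `rbar p k x`, the class of
   `diag (ω ^ x₁, …, ω ^ x_n)`, satisfies all the hypotheses of the question with `S = ∅`
   if and only if `x` is strongly regular and `p` divides `(n - 2 a) ^ 2 - (n % 2)`.
3. For even `n > 0` there is a weight `x` with both properties, so that the question has a negative
   answer for `SL_n` and `p`, if and only if `n ≥ 2 p`. -/
theorem result (p : ℕ) [Fact p.Prime] (hp : p ≠ 2) :
    (∀ (n : ℕ) (x : Fin n → ℤ), Even n → Odd (∑ i, (x i - rho n i)) →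
      ∀ (V : Type) [AddCommGroup V] [Module ℚ V] (π : Representation ℚ SL(n, ℚ) V),
        IsIrreducibleOfHighestWeight π (fun i => x i - rho n i) →
        ∀ (M : Submodule ℤ V) (hM : IsStableLattice π M) (k : Type) [Field k] [Finite k]
          [CharP k p] (N i : ℕ), Subsingleton (H hM N k i)) ∧
    (∀ (n : ℕ) (x : Fin n → ℤ), 0 < n → ∀ (k : Type) [Field k] [Finite k] [CharP k p],
      Hypotheses p k x ∅ (rbar p k x) ↔
        StronglyRegular x ∧ (p : ℤ) ∣ ((n : ℤ) - 2 * numOdd x) ^ 2 - (n % 2 : ℕ)) ∧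
    (∀ n : ℕ, Even n → 0 < n → ((∃ x : Fin n → ℤ, Odd (∑ i, (x i - rho n i)) ∧
      ∀ (k : Type) [Field k] [Finite k] [CharP k p], Hypotheses p k x ∅ (rbar p k x)) ↔
        2 * p ≤ n)) := by
  have hpp : p.Prime := Fact.out
  have hodd : p % 2 = 1 := by
    rcases hpp.eq_two_or_odd with h | h
    · exact absurd h hp
    · exact h
  refine ⟨?_, ?_, ?_⟩
  · intro n x hn hx V _ _ π hπ M hM k _ _ _ N i
    exact vanishing hn hπ hx hM N k (two_ne_zero' hp k) i
  · intro n x hn k _ _ _
    exact hyp_iff p hn k x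
  · intro n hn hn0
    constructor
    · rintro ⟨x, hx, hk⟩
      rw [odd_iff hn] at hx
      have h1 := ((hyp_iff p hn0 (ZMod p) x).1 (hk (ZMod p))).2
      have h2 : n % 2 = 0 := Nat.even_iff.1 hn
      rw [h2, Nat.cast_zero, sub_zero] at h1
      have h3 : (p : ℤ) ∣ (n : ℤ) - 2 * numOdd x :=
        Int.Prime.dvd_pow' hpp h1
      have h4 : numOdd x ≤ n := by
        have := Finset.card_filter_le (Finset.univ : Finset (Fin n)) (fun i => Odd (x i))
        simpa [numOdd] using this
      obtain ⟨m, hm⟩ := hn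
      have h5 : n / 2 = m := by omega
      rw [h5] at hx
      have h6 : (p : ℤ) ∣ (m : ℤ) - numOdd x := by
        have h7 : (n : ℤ) - 2 * numOdd x = 2 * ((m : ℤ) - numOdd x) := by
          have : (n : ℤ) = m + m := by omega
          linarith
        rw [h7] at h3
        have h8 : IsCoprime (p : ℤ) 2 := by
          rw [Int.isCoprime_iff_gcd_eq_one]
          have : Nat.Coprime p 2 := (Nat.coprime_primes hpp Nat.prime_two).2 hp
          exact_mod_cast this
        exact h8.dvd_of_dvd_mul_left h3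
      have h9 : (m : ℤ) - numOdd x ≠ 0 := by
        intro h
        have : m = numOdd x := by omega
        rw [this] at hx
        rw [← two_mul] at hx
        exact (Nat.not_odd_iff_even.2 (even_two_mul _)) hx
      have h10 := Int.le_of_dvd (abs_pos.2 h9) ((dvd_abs _ _).2 h6)
      have h11 : |(m : ℤ) - numOdd x| ≤ m := by
        rw [abs_le]
        constructor <;> omega
      omega
    · intro h
      obtain ⟨m, hm⟩ := hn
      have h5 : n / 2 = m := by omega
      have h6 : numOdd (wt n (m - p)) = m - p := numOdd_wt (by omega)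
      refine ⟨wt n (m - p), ?_, fun k _ _ _ => ?_⟩
      · rw [odd_iff ⟨m, hm⟩, h6, h5, Nat.odd_iff]
        omega
      · rw [hyp_iff p hn0 k, h6]
        refine ⟨wt_regular _ _, ?_⟩
        have h7 : n % 2 = 0 := by omega
        have h8 : (n : ℤ) - 2 * ((m - p : ℕ) : ℤ) = 2 * p := by
          rw [hm, Nat.cast_sub (by omega)]
          push_cast
          ring
        rw [h7, h8]
        exact ⟨4 * p, by push_cast; ring⟩

end

end Pool.Agent.Results.MP_f2eb9c_nt.AllEvenRanks
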